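import Pool.Agent.H17.SQA.Stmts

/-!
# SQA, row NRG: energy along reduced words
-/

set_option autoImplicit false

namespace Pool.SQA

open Finset

namespace Nrg31

section words

variable {J A Y : Type} [Fintype J] [DecidableEq J] [Fintype A] [DecidableEq A] [AddCommGroup A]

/-- The reduced words of length at most `r` whose first letter is not of the pair `j0`. -/
noncomputable def wd : ℕ → J → Finset (List (J × A))
  | 0, _ => {[]}
  | r + 1, j0 => insert [] (((univ.erase j0) ×ˢ ((univ : Finset A).erase 0)).biUnion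
      fun l => (wd r l.1).image (List.cons l))

theorem wd_red (r : ℕ) : ∀ (j0 : J), ∀ w ∈ wd (A := A) r j0, Red w ∧ w.length ≤ r ∧
    ∀ l ∈ w.head?, j0 ≠ l.1 := by
  induction r with
  | zero =>
    intro j0 w hw
    rw [wd, mem_singleton] at hw
    subst hw
    refine ⟨⟨by simp, List.isChain_nil⟩, by simp, by simp⟩
  | succ r ih =>
    intro j0 w hw
    rw [wd, mem_insert] at hw
    rcases hw with rfl | hw
    · refine ⟨⟨by simp, List.isChain_nil⟩, by simp, by simp⟩
    · rw [mem_biUnion] at hw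
      obtain ⟨l, hl, hw⟩ := hw
      rw [mem_image] at hw
      obtain ⟨u, hu, rfl⟩ := hw
      rw [mem_product, mem_erase, mem_erase] at hl
      obtain ⟨⟨h1, h2⟩, h3⟩ := ih l.1 u hu
      refine ⟨⟨?_, ?_⟩, ?_, ?_⟩
      · intro l' hl'
        rcases List.mem_cons.mp hl' with rfl | h
        · exact hl.2.1
        · exact h1 l' h
      · rw [List.isChain_cons]
        exact ⟨h3.2, h2⟩
      · rw [List.length_cons]
        omega
      · intro l' hl'
        simp only [List.head?_cons, Option.mem_def, Option.some.injEq] at hl'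
        rw [← hl']
        exact fun h => hl.1.1 h.symm

theorem wd_sum (τ : J → A → Y → Y) (F : Y → ℝ) (r : ℕ) (j0 : J) (y : Y) :
    ∑ w ∈ wd (A := A) (r + 1) j0, F (act τ w y) =
      F y + ∑ j ∈ univ.erase j0, ∑ a ∈ (univ : Finset A).erase 0,
        ∑ w ∈ wd (A := A) r j, F (act τ w (τ j a y)) := by
  rw [wd, sum_insert]
  · rw [sum_biUnion]
    · rw [sum_product]
      refine congrArg₂ _ rfl (sum_congr rfl fun j _ => sum_congr rfl fun a _ => ?_)
      rw [sum_image]
      · rfl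
      · intro u _ u' _ h
        exact (List.cons.inj h).2
    · intro l _ l' _ hne
      rw [Function.onFun, Finset.disjoint_left]
      intro w hw hw'
      rw [mem_image] at hw hw'
      obtain ⟨u, _, rfl⟩ := hw
      obtain ⟨u', _, hu'⟩ := hw'
      exact hne (List.cons.inj hu').1.symm
  · rw [mem_biUnion]
    rintro ⟨l, _, hl⟩
    rw [mem_image] at hl
    obtain ⟨u, _, hu⟩ := hl
    exact List.cons_ne_nil _ _ hu

/-- The energy inequality. -/
theorem energy (τ : J → A → Y → Y) (Y0 : Finset Y) (F : Y → ℝ) (β : ℝ)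
    (h1 : ∀ j a, ∀ y ∈ Y0, τ j a y ∈ Y0) (h4 : 1 ≤ ((Fintype.card J : ℝ) - 1) * β)
    (hF : ∀ y, 0 ≤ F y)
    (h5 : ∀ y ∈ Y0, ∀ j, β * F y ≤ ∑ a ∈ (univ : Finset A).erase 0, F (τ j a y)) (r : ℕ) :
    ∀ (j0 : J), ∀ y ∈ Y0, ((r : ℝ) + 1) * F y ≤ ∑ w ∈ wd (A := A) r j0, F (act τ w y) := by
  induction r with
  | zero =>
    intro j0 y _
    rw [wd, sum_singleton]
    simp only [Nat.cast_zero, zero_add, one_mul]
    exact le_rfl
  | succ r ih =>
    intro j0 y hy
    rw [wd_sum]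
    have e1 : ∀ j ∈ univ.erase j0, ((r : ℝ) + 1) * (β * F y) ≤
        ∑ a ∈ (univ : Finset A).erase 0, ∑ w ∈ wd (A := A) r j, F (act τ w (τ j a y)) := by
      intro j _
      calc ((r : ℝ) + 1) * (β * F y)
          ≤ ((r : ℝ) + 1) * ∑ a ∈ (univ : Finset A).erase 0, F (τ j a y) :=
            mul_le_mul_of_nonneg_left (h5 y hy j) (by positivity)
        _ = ∑ a ∈ (univ : Finset A).erase 0, ((r : ℝ) + 1) * F (τ j a y) := by rw [mul_sum]
        _ ≤ _ := sum_le_sum fun a _ => ih j _ (h1 j a y hy)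
    have e2 : ((univ : Finset J).erase j0).card = Fintype.card J - 1 := by
      rw [card_erase_of_mem (mem_univ _), card_univ]
    have hJ : 1 ≤ Fintype.card J := Fintype.card_pos_iff.mpr ⟨j0⟩
    have e3 := sum_le_sum e1
    rw [sum_const, e2, nsmul_eq_mul, Nat.cast_sub hJ, Nat.cast_one] at e3
    have e4 : ((r : ℝ) + 1) * F y ≤ ((Fintype.card J : ℝ) - 1) * (((r : ℝ) + 1) * (β * F y)) := by
      have h6 : 0 ≤ ((r : ℝ) + 1) * F y := mul_nonneg (by positivity) (hF y)
      nlinarith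
    push_cast
    linarith

end words

section trace

variable {Y : Type} [Fintype Y]

/-- An orthonormal basis of a space of functions. -/
theorem onb (X : Submodule ℂ (Y → ℂ)) :
    ∃ e : Fin (Module.finrank ℂ X) → Y → ℂ, (∀ i, e i ∈ X) ∧
      ∀ i j, ∑ y, e i y * (starRingEnd ℂ) (e j y) = if i = j then 1 else 0 := by
  classical
  set L : (Y → ℂ) ≃ₗ[ℂ] EuclideanSpace ℂ Y := (WithLp.linearEquiv 2 ℂ (Y → ℂ)).symm with hL
  set X' : Submodule ℂ (EuclideanSpace ℂ Y) := X.map (L : (Y → ℂ) →ₗ[ℂ] EuclideanSpace ℂ Y) with hX'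
  have hfin : Module.finrank ℂ X' = Module.finrank ℂ X := LinearEquiv.finrank_map_eq L X
  set b := (stdOrthonormalBasis ℂ X').reindex (finCongr hfin) with hb
  refine ⟨fun i => L.symm (b i : EuclideanSpace ℂ Y), ?_, ?_⟩
  · intro i
    have h1 : (b i : EuclideanSpace ℂ Y) ∈ X' := (b i).2
    obtain ⟨x, hx, hx2⟩ := Submodule.mem_map.mp h1
    have h2 : L.symm (b i : EuclideanSpace ℂ Y) = x := by
      rw [← hx2]
      exact L.symm_apply_apply x
    change L.symm (b i : EuclideanSpace ℂ Y) ∈ X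
    rw [h2]
    exact hx
  · intro i j
    have h1 := orthonormal_iff_ite.mp b.orthonormal j i
    rw [Submodule.coe_inner, PiLp.inner_apply] at h1
    have h2 : ∀ y : Y, (L.symm (b i : EuclideanSpace ℂ Y)) y = (b i : EuclideanSpace ℂ Y) y :=
      fun y => rfl
    have h3 : ∀ y : Y, (L.symm (b j : EuclideanSpace ℂ Y)) y = (b j : EuclideanSpace ℂ Y) y :=
      fun y => rfl
    simp only [h2, h3]
    simp only [RCLike.inner_apply] at h1
    rw [h1]
    by_cases h : i = j
    · rw [if_pos h, if_pos h.symm]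
    · rw [if_neg h, if_neg (fun h' => h h'.symm)]

end trace

end Nrg31

open Nrg31

/-- row NRG -/
theorem t_nrg : NRGStmt := by
  classical
  intro J A Y _ _ _ _ _ _ _ τ Y0 G X β R h1 h2 h3 h4 h5 h6
  obtain ⟨e, he1, he2⟩ := onb X
  -- `J` is not empty
  have hJ : Nonempty J := by
    by_contra hJ
    rw [not_nonempty_iff] at hJ
    rw [Fintype.card_eq_zero, Nat.cast_zero] at h4
    linarith
  obtain ⟨j0⟩ := hJ
  -- the leverages
  set κ : Y → ℝ := fun y => ∑ i, ‖e i y‖ ^ 2 with hκ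
  have hκ0 : ∀ y, 0 ≤ κ y := fun y => sum_nonneg fun i _ => by positivity
  have hnorm : ∀ i, ∑ y, ‖e i y‖ ^ 2 = 1 := by
    intro i
    have h7 := he2 i i
    rw [if_pos rfl] at h7
    have h8 : ((∑ y, ‖e i y‖ ^ 2 : ℝ) : ℂ) = 1 := by
      rw [← h7]
      push_cast
      refine sum_congr rfl fun y _ => ?_
      rw [Complex.mul_conj']
    exact_mod_cast h8
  have htr : (Module.finrank ℂ X : ℝ) = ∑ y, κ y := by
    rw [hκ, sum_comm]
    simp only [hnorm]
    rw [sum_const, card_univ, Fintype.card_fin, nsmul_eq_mul, mul_one]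
  -- the extremal functions
  have hext : ∀ y0 : Y, ∃ ξ ∈ X, ‖ξ y0‖ = κ y0 ∧ ∑ y, ‖ξ y‖ ^ 2 = κ y0 := by
    intro y0
    refine ⟨∑ i, (starRingEnd ℂ) (e i y0) • e i, Submodule.sum_mem _ fun i _ =>
      Submodule.smul_mem _ _ (he1 i), ?_, ?_⟩
    · have h7 : (∑ i, (starRingEnd ℂ) (e i y0) • e i) y0 = ((κ y0 : ℝ) : ℂ) := by
        rw [Finset.sum_apply, hκ]
        push_cast
        refine sum_congr rfl fun i _ => ?_
        rw [Pi.smul_apply, smul_eq_mul, Complex.conj_mul']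
      rw [h7, Complex.norm_real, Real.norm_eq_abs, abs_of_nonneg (hκ0 y0)]
    · have h7 : ((∑ y, ‖(∑ i, (starRingEnd ℂ) (e i y0) • e i) y‖ ^ 2 : ℝ) : ℂ) =
          ((κ y0 : ℝ) : ℂ) := by
        have h8 : ∀ y, ((‖(∑ i, (starRingEnd ℂ) (e i y0) • e i) y‖ ^ 2 : ℝ) : ℂ) =
            ∑ i, ∑ j, ((starRingEnd ℂ) (e i y0) * e j y0) *
              (e i y * (starRingEnd ℂ) (e j y)) := by
          intro y
          push_cast
          rw [← Complex.mul_conj', Finset.sum_apply, map_sum, sum_mul_sum]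
          refine sum_congr rfl fun i _ => sum_congr rfl fun j _ => ?_
          rw [Pi.smul_apply, Pi.smul_apply, smul_eq_mul, smul_eq_mul, map_mul, Complex.conj_conj]
          ring
        rw [Complex.ofReal_sum]
        rw [sum_congr rfl fun y _ => h8 y, sum_comm]
        rw [hκ]
        push_cast
        refine sum_congr rfl fun i _ => ?_
        rw [sum_comm]
        have h9 : ∀ j, ∑ y, ((starRingEnd ℂ) (e i y0) * e j y0) *
            (e i y * (starRingEnd ℂ) (e j y)) =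
            ((starRingEnd ℂ) (e i y0) * e j y0) * (if i = j then 1 else 0) := by
          intro j
          rw [← mul_sum, he2]
        rw [sum_congr rfl fun j _ => h9 j]
        simp only [mul_ite, mul_one, mul_zero]
        rw [sum_ite_eq, if_pos (mem_univ _), Complex.conj_mul']
      exact_mod_cast h7
  -- the bound by `1`
  have hb1 : ∀ y, κ y ≤ 1 := by
    intro y0
    obtain ⟨ξ, -, h7, h8⟩ := hext y0
    have h9 : ‖ξ y0‖ ^ 2 ≤ ∑ y, ‖ξ y‖ ^ 2 :=
      single_le_sum (f := fun y => ‖ξ y‖ ^ 2) (fun y _ => by positivity) (mem_univ y0)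
    rw [h7, h8] at h9
    nlinarith [hκ0 y0]
  -- zero outside `Y0`
  have hb0 : ∀ y, y ∉ Y0 → κ y = 0 := by
    intro y hy
    rw [hκ]
    refine sum_eq_zero fun i _ => ?_
    rw [h2 _ (he1 i) y hy, norm_zero]
    norm_num
  -- the good points
  have hbG : ∀ y ∈ Y0, y ∈ G → κ y ≤ 1 / ((R : ℝ) + 1) := by
    intro y0 hy0 hG
    obtain ⟨ξ, hξ, h7, h8⟩ := hext y0
    have h9 := energy (A := A) τ Y0 (fun y => ‖ξ y‖ ^ 2) β h1 h4 (fun y => by positivity)
      (fun y hy j => h5 ξ hξ y hy j) R j0 y0 hy0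
    have h10 : ∑ w ∈ wd (A := A) R j0, ‖ξ (act τ w y0)‖ ^ 2 ≤ ∑ y, ‖ξ y‖ ^ 2 := by
      rw [← sum_image (f := fun y => ‖ξ y‖ ^ 2) (g := fun w => act τ w y0)]
      · exact sum_le_univ_sum_of_nonneg fun y => by positivity
      · intro w hw w' hw' hww
        have a1 := wd_red R j0 w hw
        have a2 := wd_red R j0 w' hw'
        exact h6 y0 hG w w' a1.1 a2.1 a1.2.1 a2.2.1 hww
    have h11 : ((R : ℝ) + 1) * κ y0 ^ 2 ≤ κ y0 := by
      have h12 := h9.trans h10
      rw [h7, h8] at h12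
      exact h12
    have hR : (0 : ℝ) < (R : ℝ) + 1 := by positivity
    rw [le_div_iff₀ hR]
    rcases (hκ0 y0).eq_or_lt with h12 | h12
    · rw [← h12]
      norm_num
    · have h13 : κ y0 * (((R : ℝ) + 1) * κ y0) ≤ κ y0 * 1 := by nlinarith
      have := le_of_mul_le_mul_left h13 h12
      linarith
  -- the sum
  have hsum : ∑ y, κ y = ∑ y ∈ Y0, κ y := by
    symm
    refine sum_subset (subset_univ _) fun y _ hy => hb0 y hy
  rw [htr, hsum, ← sum_filter_add_sum_filter_not Y0 (fun y => y ∈ G)]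
  have hG1 : ∑ y ∈ Y0.filter (fun y => y ∈ G), κ y ≤ (Y0.card : ℝ) / ((R : ℝ) + 1) := by
    calc ∑ y ∈ Y0.filter (fun y => y ∈ G), κ y
        ≤ ∑ y ∈ Y0.filter (fun y => y ∈ G), 1 / ((R : ℝ) + 1) :=
          sum_le_sum fun y hy => hbG y (mem_filter.mp hy).1 (mem_filter.mp hy).2
      _ = ((Y0.filter (fun y => y ∈ G)).card : ℝ) * (1 / ((R : ℝ) + 1)) := by
          rw [sum_const, nsmul_eq_mul]
      _ ≤ (Y0.card : ℝ) * (1 / ((R : ℝ) + 1)) := by
          refine mul_le_mul_of_nonneg_right ?_ (by positivity)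
          exact_mod_cast card_filter_le _ _
      _ = _ := by ring
  have hG2 : ∑ y ∈ Y0.filter (fun y => ¬ y ∈ G), κ y ≤ ((Y0 \ G).card : ℝ) := by
    have e5 : Y0.filter (fun y => ¬ y ∈ G) = Y0 \ G := by
      ext y
      simp
    rw [e5]
    calc ∑ y ∈ Y0 \ G, κ y ≤ ∑ y ∈ Y0 \ G, (1 : ℝ) := sum_le_sum fun y _ => hb1 y
      _ = _ := by rw [sum_const, nsmul_eq_mul, mul_one]
  linarith

end Pool.SQA
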