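import Pool.Agent.H17.SQA.Stmts

/-!
# SQA, row WIN: two reduced words that agree at a point give one that fixes it
-/

set_option autoImplicit false

namespace Pool.SQA

namespace Win31

variable {J A Y : Type}

theorem act_append (τ : J → A → Y → Y) (u v : List (J × A)) (y : Y) :
    act τ (u ++ v) y = act τ v (act τ u y) := by
  induction u generalizing y with
  | nil => rfl
  | cons l u ih => exact ih _

/-- The inverse word. -/
def inv [AddCommGroup A] (w : List (J × A)) : List (J × A) :=
  (w.map (fun l => (l.1, -l.2))).reverse

theorem act_inv [AddCommGroup A] (τ : J → A → Y → Y) (h0 : ∀ j y, τ j 0 y = y)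
    (h1 : ∀ j a b y, τ j a (τ j b y) = τ j (a + b) y) (w : List (J × A)) (y : Y) :
    act τ (inv w) (act τ w y) = y := by
  induction w generalizing y with
  | nil => rfl
  | cons l w ih =>
    have e : inv (l :: w) = inv w ++ [(l.1, -l.2)] := by
      rw [inv, List.map_cons, List.reverse_cons]
      rfl
    rw [e, act_append]
    change τ l.1 (-l.2) (act τ (inv w) (act τ w (τ l.1 l.2 y))) = y
    rw [ih, h1, neg_add_cancel, h0]

theorem inv_length [AddCommGroup A] (w : List (J × A)) : (inv w).length = w.length := by
  rw [inv, List.length_reverse, List.length_map]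

theorem red_inv [AddCommGroup A] {w : List (J × A)} (h : Red w) : Red (inv w) := by
  refine ⟨?_, ?_⟩
  · intro l hl
    rw [inv, List.mem_reverse, List.mem_map] at hl
    obtain ⟨l', hl', rfl⟩ := hl
    exact neg_ne_zero.mpr (h.1 l' hl')
  · rw [inv, List.isChain_reverse, List.isChain_map]
    exact h.2.imp fun a b hab => hab.symm

theorem red_left [Zero A] {u v : List (J × A)} (h : Red (u ++ v)) : Red u := by
  refine ⟨fun l hl => h.1 l (List.mem_append_left _ hl), ?_⟩
  have := h.2
  rw [List.isChain_append] at this
  exact this.1

theorem red_snoc [Zero A] {u : List (J × A)} {j : J} {a b : A} (h : Red (u ++ [(j, a)]))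
    (hb : b ≠ 0) : Red (u ++ [(j, b)]) := by
  refine ⟨?_, ?_⟩
  · intro l hl
    rcases List.mem_append.mp hl with h1 | h1
    · exact h.1 l (List.mem_append_left _ h1)
    · rw [List.mem_singleton] at h1
      rw [h1]
      exact hb
  · have h2 := h.2
    rw [List.isChain_append] at h2 ⊢
    refine ⟨h2.1, List.isChain_singleton _, ?_⟩
    intro x hx y hy
    have h3 := h2.2.2 x hx (j, a) (by simp)
    simp only [List.head?_cons, Option.mem_def, Option.some.injEq] at hy
    rw [← hy]
    exact h3

theorem main [AddCommGroup A] (τ : J → A → Y → Y) (h0 : ∀ j y, τ j 0 y = y)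
    (h1 : ∀ j a b y, τ j a (τ j b y) = τ j (a + b) y) (y : Y) : ∀ (n : ℕ)
    (w w' : List (J × A)), w.length + w'.length ≤ n → Red w → Red w' → w ≠ w' →
      act τ w y = act τ w' y →
      ∃ v : List (J × A), v ≠ [] ∧ Red v ∧ v.length ≤ w.length + w'.length ∧ act τ v y = y := by
  classical
  intro n
  induction n with
  | zero =>
    intro w w' hn _ _ hne _
    have e1 : w = [] := List.length_eq_zero_iff.mp (by omega)
    have e2 : w' = [] := List.length_eq_zero_iff.mp (by omega)
    exact absurd (e1.trans e2.symm) hne
  | succ n ih =>
    intro w w' hn hw hw' hne hact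
    rcases List.eq_nil_or_concat w with rfl | ⟨u, l, rfl⟩
    · exact ⟨w', fun h => hne h.symm, hw', by omega, hact.symm⟩
    rcases List.eq_nil_or_concat w' with rfl | ⟨u', l', rfl⟩
    · exact ⟨_, hne, hw, by omega, hact⟩
    obtain ⟨j, a⟩ := l
    obtain ⟨j', b⟩ := l'
    rw [List.concat_eq_append] at *
    rw [List.concat_eq_append] at *
    by_cases hj : j = j'
    · subst hj
      have hact' : τ j a (act τ u y) = τ j b (act τ u' y) := by
        rw [act_append, act_append] at hact
        exact hact
      have hu : act τ u y = τ j (-a + b) (act τ u' y) := by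
        rw [← h1, ← hact', h1, neg_add_cancel, h0]
      by_cases hab : a = b
      · subst hab
        rw [neg_add_cancel, h0] at hu
        have hne' : u ≠ u' := fun h => hne (by rw [h])
        obtain ⟨v, hv1, hv2, hv3, hv4⟩ := ih u u' (by
          simp only [List.length_append, List.length_singleton] at hn
          omega) (red_left hw) (red_left hw') hne' hu
        refine ⟨v, hv1, hv2, ?_, hv4⟩
        simp only [List.length_append, List.length_singleton]
        omega
      · have hc : -a + b ≠ 0 := by
          intro h
          apply hab
          have : b = a := by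
            have h2 : a + (-a + b) = a + 0 := by rw [h]
            rwa [add_neg_cancel_left, add_zero] at h2
          exact this.symm
        have hne' : u ≠ u' ++ [(j, -a + b)] := by
          intro h
          have h2 := hw.2
          rw [List.isChain_append] at h2
          have h3 := h2.2.2 (j, -a + b) (by rw [h]; simp) (j, a) (by simp)
          exact h3 rfl
        have hact2 : act τ u y = act τ (u' ++ [(j, -a + b)]) y := by
          rw [act_append]
          exact hu
        obtain ⟨v, hv1, hv2, hv3, hv4⟩ := ih u (u' ++ [(j, -a + b)]) (by
          simp only [List.length_append, List.length_singleton] at hn ⊢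
          omega) (red_left hw) (red_snoc hw' hc) hne' hact2
        refine ⟨v, hv1, hv2, ?_, hv4⟩
        simp only [List.length_append, List.length_singleton] at hv3 ⊢
        omega
    · refine ⟨(u ++ [(j, a)]) ++ inv (u' ++ [(j', b)]), ?_, ?_, ?_, ?_⟩
      · simp
      · refine ⟨?_, ?_⟩
        · intro l hl
          rcases List.mem_append.mp hl with h2 | h2
          · exact hw.1 l h2
          · exact (red_inv hw').1 l h2
        · rw [List.isChain_append]
          refine ⟨hw.2, (red_inv hw').2, ?_⟩
          intro x hx z hz
          have e1 : x = (j, a) := by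
            rw [List.getLast?_append] at hx
            simpa using hx.symm
          have e2 : z = (j', -b) := by
            rw [inv, List.map_append, List.reverse_append] at hz
            simpa using hz.symm
          rw [e1, e2]
          exact hj
      · rw [List.length_append, inv_length]
      · rw [act_append, hact, act_inv τ h0 h1]

end Win31

/-- row WIN -/
theorem t_win : WINStmt := by
  intro J A Y _ τ h0 h1 y w w' hw hw' hne hact
  exact Win31.main τ h0 h1 y _ w w' le_rfl hw hw' hne hact

end Pool.SQA
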