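import Pool.Agent.H17.SQA.Stmts

/-!
# SQA, row WRD: reduced words act nontrivially except for few values of `z`
-/

set_option autoImplicit false

namespace Pool.SQA

open Finset Polynomial

namespace Wrd31

section hom

variable {m : ℕ}

/-- `el` and ring homomorphisms. -/
theorem el_hom {R S : Type} [CommRing R] [CommRing S] (φ : R →+* S) (d : ℕ)
    (o : Finset (Fin m) → Fin m) (B : Finset (Fin m)) (y : Fin m → R) :
    el d o B (fun i => φ (y i)) = φ (el d o B y) := by
  unfold el
  rw [map_sub, map_sum, map_mul, map_natCast]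

theorem mv_hom {R S : Type} [CommRing R] [CommRing S] (φ : R →+* S) (d : ℕ)
    (o : Finset (Fin m) → Fin m) (lam : Finset (Fin m) → R) (B : Finset (Fin m)) (t : R)
    (y : Fin m → R) :
    mv d o (fun B => φ (lam B)) B (φ t) (fun i => φ (y i)) = fun i => φ (mv d o lam B t y i) := by
  funext i
  unfold mv
  rw [el_hom]
  by_cases h : i ∈ B
  · rw [if_pos h, if_pos h, map_add, map_mul, map_mul]
  · rw [if_neg h, if_neg h]

/-- Words and ring homomorphisms. -/
theorem act_hom {p : ℕ} {R S : Type} [CommRing R] [CommRing S] [Algebra (ZMod p) R]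
    [Algebra (ZMod p) S] (φ : R →ₐ[ZMod p] S) (d : ℕ)
    (o : Finset (Fin m) → Fin m) (lam : Finset (Fin m) → R) (I : Finset (Fin m))
    (v : List (Pr d o I × (ZMod p × ZMod p))) : ∀ y : Fin m → R,
    act (tau p d o (fun B => φ (lam B)) I) v (fun i => φ (y i)) =
      fun i => φ (act (tau p d o lam I) v y i) := by
  induction v with
  | nil => intro y; rfl
  | cons l v ih =>
    intro y
    change act (tau p d o (fun B => φ (lam B)) I) v
      (tau p d o (fun B => φ (lam B)) I l.1 l.2 (fun i => φ (y i))) = _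
    have h : tau p d o (fun B => φ (lam B)) I l.1 l.2 (fun i => φ (y i)) =
        fun i => φ (tau p d o lam I l.1 l.2 y i) := by
      unfold tau
      have e1 : algebraMap (ZMod p) S l.2.1 = (φ : R →+* S) (algebraMap (ZMod p) R l.2.1) :=
        (φ.commutes _).symm
      have e2 : algebraMap (ZMod p) S l.2.2 = (φ : R →+* S) (algebraMap (ZMod p) R l.2.2) :=
        (φ.commutes _).symm
      rw [e1, e2]
      have h2 := mv_hom (φ : R →+* S) d o lam (I \ l.1.1) (algebraMap (ZMod p) R l.2.2) y
      have h3 := mv_hom (φ : R →+* S) d o lam l.1.1 (algebraMap (ZMod p) R l.2.1)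
        (mv d o lam (I \ l.1.1) (algebraMap (ZMod p) R l.2.2) y)
      change mv d o (fun B => (φ : R →+* S) (lam B)) l.1.1 _
        (mv d o (fun B => (φ : R →+* S) (lam B)) (I \ l.1.1) _ (fun i => (φ : R →+* S) (y i))) = _
      rw [h2, h3]
      rfl
    rw [h]
    exact ih _

end hom

section pattern

variable {p m : ℕ}

/-- All coordinates have degree at most `D`, and `P` is the vector of the coefficients
of `X ^ D`. -/
def Pat (Y : Fin m → (ZMod p)[X]) (D : ℕ) (P : Fin m → ZMod p) : Prop :=
  (∀ i n, D < n → (Y i).coeff n = 0) ∧ ∀ i, (Y i).coeff D = P i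

theorem el_coeff (d : ℕ) (o : Finset (Fin m) → Fin m) (B : Finset (Fin m))
    (Y : Fin m → (ZMod p)[X]) (n : ℕ) :
    (el d o B Y).coeff n = el d o B (fun i => (Y i).coeff n) := by
  unfold el
  rw [coeff_sub, finsetSum_coeff]
  congr 1
  rw [← C_eq_natCast, coeff_C_mul]

/-- One of the two moves: the coefficients. -/
theorem mv_coeff (d : ℕ) (o : Finset (Fin m) → Fin m) (om : Finset (Fin m) → ℕ)
    (B : Finset (Fin m)) (t : ZMod p) (Y : Fin m → (ZMod p)[X]) (D : ℕ) (P : Fin m → ZMod p)
    (hY : Pat Y D P) (i : Fin m) (n : ℕ) (hn : D < n) (hom : t = 0 ∨ D + om B ≤ n) :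
    (mv d o (fun B => (X : (ZMod p)[X]) ^ om B) B (C t) Y i).coeff n =
      if i ∈ B ∧ n = D + om B then t * el d o B P else 0 := by
  unfold mv
  by_cases hi : i ∈ B
  · rw [if_pos hi, coeff_add, hY.1 i n hn, zero_add, mul_assoc, coeff_C_mul]
    rcases hom with h | h
    · rw [h, zero_mul, zero_mul, ite_self]
    · have hle : om B ≤ n := by omega
      rw [coeff_X_pow_mul', if_pos hle, el_coeff]
      by_cases hnD : n = D + om B
      · rw [if_pos ⟨hi, hnD⟩]
        have e : n - om B = D := by omega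
        rw [e]
        congr 2
        funext j
        exact hY.2 j
      · rw [if_neg (fun h => hnD h.2)]
        have e : ∀ j, (Y j).coeff (n - om B) = 0 := fun j => hY.1 j _ (by omega)
        have e2 : el d o B (fun j => (Y j).coeff (n - om B)) = 0 := by
          unfold el
          simp only [e]
          simp
        rw [e2, mul_zero]
  · rw [if_neg hi, if_neg (fun h => hi h.1)]
    exact hY.1 i n hn

end pattern

section letter

variable {p m : ℕ}

theorem mv_notMem {R : Type} [CommRing R] (d : ℕ) (o : Finset (Fin m) → Fin m)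
    (lam : Finset (Fin m) → R) (B : Finset (Fin m)) (t : R) (y : Fin m → R) {i : Fin m}
    (hi : i ∉ B) : mv d o lam B t y i = y i := by
  unfold mv
  rw [if_neg hi]

theorem el_congr {R : Type} [CommRing R] (d : ℕ) (o : Finset (Fin m) → Fin m)
    (B : Finset (Fin m)) (ho : o B ∈ B) (y y' : Fin m → R) (h : ∀ i ∈ B, y i = y' i) :
    el d o B y = el d o B y' := by
  unfold el
  rw [h _ ho, Finset.sum_congr rfl h]

/-- The value of a letter. -/
theorem tau_apply {R : Type} [CommRing R] [Algebra (ZMod p) R] (d : ℕ)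
    (o : Finset (Fin m) → Fin m) (lam : Finset (Fin m) → R) (I : Finset (Fin m)) (B : Pr d o I)
    (a : ZMod p × ZMod p) (y : Fin m → R) (hoB : o B.1 ∈ B.1) (i : Fin m) :
    tau p d o lam I B a y i =
      if i ∈ B.1 then mv d o lam B.1 (algebraMap (ZMod p) R a.1) y i
      else mv d o lam (I \ B.1) (algebraMap (ZMod p) R a.2) y i := by
  unfold tau
  by_cases hi : i ∈ B.1
  · rw [if_pos hi]
    have h1 : ∀ j ∈ B.1, mv d o lam (I \ B.1) (algebraMap (ZMod p) R a.2) y j = y j := by
      intro j hj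
      exact mv_notMem _ _ _ _ _ _ (fun h => (mem_sdiff.mp h).2 hj)
    unfold mv
    rw [if_pos hi, if_pos hi]
    have h2 := el_congr d o B.1 hoB _ _ h1
    unfold mv at h1 h2
    rw [h1 i hi, h2]
  · rw [if_neg hi]
    exact mv_notMem _ _ _ _ _ _ hi

/-- The leading set of a letter. -/
def ld (d : ℕ) (o : Finset (Fin m) → Fin m) (om : Finset (Fin m) → ℕ) (I : Finset (Fin m))
    (l : Pr d o I × (ZMod p × ZMod p)) : Finset (Fin m) :=
  if l.2.1 ≠ 0 ∧ (l.2.2 = 0 ∨ om (I \ l.1.1) < om l.1.1) then l.1.1 else I \ l.1.1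

theorem card_sdiff' {d : ℕ} {o : Finset (Fin m) → Fin m} {I : Finset (Fin m)}
    (hI : I.card = 2 * d) (B : Pr d o I) : (I \ B.1).card = d := by
  rw [card_sdiff_of_subset B.2.1, hI, B.2.2.1]
  omega

theorem ld_card {d : ℕ} {o : Finset (Fin m) → Fin m} {om : Finset (Fin m) → ℕ}
    {I : Finset (Fin m)} (hI : I.card = 2 * d) (l : Pr d o I × (ZMod p × ZMod p)) :
    (ld d o om I l).card = d := by
  unfold ld
  split_ifs
  · exact l.1.2.2.1
  · exact card_sdiff' hI l.1

theorem ld_sub {d : ℕ} {o : Finset (Fin m) → Fin m} {om : Finset (Fin m) → ℕ}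
    {I : Finset (Fin m)} (l : Pr d o I × (ZMod p × ZMod p)) : ld d o om I l ⊆ I := by
  unfold ld
  split_ifs
  · exact l.1.2.1
  · exact sdiff_subset

/-- The leading sets of two letters of different pairs. -/
theorem ld_inter {d : ℕ} {o : Finset (Fin m) → Fin m} {om : Finset (Fin m) → ℕ}
    {I : Finset (Fin m)} (hI : I.card = 2 * d)
    (l l' : Pr d o I × (ZMod p × ZMod p)) (hne : l.1 ≠ l'.1) :
    0 < (ld d o om I l ∩ ld d o om I l').card ∧ (ld d o om I l ∩ ld d o om I l').card < d := by
  have key : ∀ C C' : Finset (Fin m), (C = l.1.1 ∨ C = I \ l.1.1) →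
      (C' = l'.1.1 ∨ C' = I \ l'.1.1) → C ≠ C' := by
    rintro C C' hC hC' rfl
    have hne' : l.1.1 ≠ l'.1.1 := fun h => hne (Subtype.ext h)
    rcases hC with h1 | h1 <;> rcases hC' with h2 | h2
    · exact hne' (h1.symm.trans h2)
    · have h3 : o I ∈ C := by rw [h1]; exact l.1.2.2.2
      rw [h2, mem_sdiff] at h3
      exact h3.2 l'.1.2.2.2
    · have h3 : o I ∈ C := by rw [h2]; exact l'.1.2.2.2
      rw [h1, mem_sdiff] at h3
      exact h3.2 l.1.2.2.2
    · apply hne'
      have h3 : I \ l.1.1 = I \ l'.1.1 := h1.symm.trans h2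
      have h4 : I \ (I \ l.1.1) = I \ (I \ l'.1.1) := by rw [h3]
      rw [Finset.sdiff_sdiff_eq_self l.1.2.1, Finset.sdiff_sdiff_eq_self l'.1.2.1] at h4
      exact h4
  have hC : ∀ l : Pr d o I × (ZMod p × ZMod p), ld d o om I l = l.1.1 ∨
      ld d o om I l = I \ l.1.1 := by
    intro l
    unfold ld
    split_ifs
    · left; rfl
    · right; rfl
  have c1 := ld_card (om := om) hI l
  have c2 := ld_card (om := om) hI l'
  have n1 : ld d o om I l ≠ ld d o om I l' := key _ _ (hC l) (hC l')
  have n2 : ld d o om I l ≠ I \ ld d o om I l' := by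
    refine key _ _ (hC l) ?_
    rcases hC l' with h | h
    · right; rw [h]
    · left; rw [h, Finset.sdiff_sdiff_eq_self l'.1.2.1]
  constructor
  · rw [Finset.card_pos]
    by_contra hcon
    rw [not_nonempty_iff_eq_empty] at hcon
    apply n2
    apply eq_of_subset_of_card_le
    · intro i hi
      rw [mem_sdiff]
      refine ⟨ld_sub l hi, fun hi' => ?_⟩
      have : i ∈ ld d o om I l ∩ ld d o om I l' := mem_inter.mpr ⟨hi, hi'⟩
      rw [hcon] at this
      exact absurd this (notMem_empty _)
    · rw [card_sdiff_of_subset (ld_sub l'), hI, c1, c2]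
      omega
  · by_contra hcon
    push Not at hcon
    apply n1
    have h1 : ld d o om I l ∩ ld d o om I l' = ld d o om I l :=
      eq_of_subset_of_card_le inter_subset_left (by rw [c1]; exact hcon)
    have h2 : ld d o om I l ∩ ld d o om I l' = ld d o om I l' :=
      eq_of_subset_of_card_le inter_subset_right (by rw [c2]; exact hcon)
    exact h1.symm.trans h2

/-- One letter. -/
theorem step {d : ℕ} {o : Finset (Fin m) → Fin m} {om : Finset (Fin m) → ℕ}
    {I : Finset (Fin m)} [Fact p.Prime] (hd : 2 ≤ d) (hI : I.card = 2 * d)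
    (ho : ∀ B, B.Nonempty → o B ∈ B) (h1 : ∀ B, 1 ≤ om B) (hinj : Function.Injective om)
    (l : Pr d o I × (ZMod p × ZMod p)) (hl : l.2 ≠ 0) (Y : Fin m → (ZMod p)[X]) (D : ℕ)
    (P : Fin m → ZMod p) (hY : Pat Y D P) (hP : el d o (ld d o om I l) P ≠ 0) :
    ∃ c : ZMod p, c ≠ 0 ∧
      Pat (tau p d o (fun B => (X : (ZMod p)[X]) ^ om B) I l.1 l.2 Y) (D + om (ld d o om I l))
        (fun i => if i ∈ ld d o om I l then c else 0) := by
  obtain ⟨B, t, t'⟩ := l
  have hBne : B.1.Nonempty := by
    rw [← Finset.card_pos, B.2.2.1]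
    omega
  have hBc : (I \ B.1).card = d := card_sdiff' hI B
  have hneB : B.1 ≠ I \ B.1 := by
    intro h
    have h2 := B.2.2.2
    rw [h, mem_sdiff] at h2
    exact h2.2 B.2.2.2
  have homne : om B.1 ≠ om (I \ B.1) := fun h => hneB (hinj h)
  -- the coefficients of the result
  have hcoef : ∀ i n, D + om (ld d o om I (B, (t, t'))) ≤ n →
      (tau p d o (fun B => (X : (ZMod p)[X]) ^ om B) I B (t, t') Y i).coeff n =
        if i ∈ B.1 then (if n = D + om B.1 then t * el d o B.1 P else 0)
        else (if i ∈ I \ B.1 ∧ n = D + om (I \ B.1) then t' * el d o (I \ B.1) P else 0) := by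
    intro i n hn
    have hDn : D < n := by
      have := h1 (ld d o om I (B, (t, t')))
      omega
    have hc1 : t = 0 ∨ D + om B.1 ≤ n := by
      by_cases ht : t = 0
      · left; exact ht
      · right
        unfold ld at hn
        split_ifs at hn with hc
        · exact hn
        · push Not at hc
          have h3 := (hc ht).2
          simp only at h3 hn
          omega
    have hc2 : t' = 0 ∨ D + om (I \ B.1) ≤ n := by
      by_cases ht : t' = 0
      · left; exact ht
      · right
        unfold ld at hn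
        split_ifs at hn with hc
        · rcases hc.2 with h3 | h3
          · exact absurd h3 ht
          · simp only at h3 hn
            omega
        · exact hn
    rw [tau_apply _ _ _ _ _ _ _ (ho _ hBne)]
    by_cases hi : i ∈ B.1
    · rw [if_pos hi, if_pos hi]
      have h4 := mv_coeff d o om B.1 t Y D P hY i n hDn hc1
      have e : algebraMap (ZMod p) (ZMod p)[X] (t, t').1 = C t := rfl
      rw [e, h4]
      by_cases hn2 : n = D + om B.1
      · rw [if_pos ⟨hi, hn2⟩, if_pos hn2]
      · rw [if_neg (fun h => hn2 h.2), if_neg hn2]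
    · rw [if_neg hi, if_neg hi]
      have h4 := mv_coeff d o om (I \ B.1) t' Y D P hY i n hDn hc2
      have e : algebraMap (ZMod p) (ZMod p)[X] (t, t').2 = C t' := rfl
      rw [e, h4]
  by_cases hc : t ≠ 0 ∧ (t' = 0 ∨ om (I \ B.1) < om B.1)
  · have hld : ld d o om I (B, (t, t')) = B.1 := by
      unfold ld
      rw [if_pos hc]
    rw [hld] at hP hcoef ⊢
    refine ⟨t * el d o B.1 P, mul_ne_zero hc.1 hP, ?_, ?_⟩
    · intro i n hn
      rw [hcoef i n hn.le]
      by_cases hi : i ∈ B.1
      · rw [if_pos hi, if_neg (by omega)]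
      · rw [if_neg hi]
        by_cases h5 : i ∈ I \ B.1 ∧ n = D + om (I \ B.1)
        · rw [if_pos h5]
          rcases hc.2 with h6 | h6
          · rw [h6, zero_mul]
          · omega
        · rw [if_neg h5]
    · intro i
      rw [hcoef i _ le_rfl]
      beta_reduce
      by_cases hi : i ∈ B.1
      · rw [if_pos hi, if_pos rfl, if_pos hi]
      · rw [if_neg hi, if_neg hi]
        by_cases h5 : i ∈ I \ B.1 ∧ D + om B.1 = D + om (I \ B.1)
        · exact absurd (Nat.add_left_cancel h5.2) homne
        · rw [if_neg h5]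
  · have hld : ld d o om I (B, (t, t')) = I \ B.1 := by
      unfold ld
      rw [if_neg hc]
    rw [hld] at hP hcoef ⊢
    push Not at hc
    have ht' : t' ≠ 0 := by
      intro h
      by_cases ht : t = 0
      · apply hl
        rw [h, ht]
        rfl
      · exact (hc ht).1 h
    refine ⟨t' * el d o (I \ B.1) P, mul_ne_zero ht' hP, ?_, ?_⟩
    · intro i n hn
      rw [hcoef i n hn.le]
      by_cases hi : i ∈ B.1
      · rw [if_pos hi]
        by_cases h5 : n = D + om B.1
        · rw [if_pos h5]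
          by_cases ht : t = 0
          · rw [ht, zero_mul]
          · have := (hc ht).2
            omega
        · rw [if_neg h5]
      · rw [if_neg hi, if_neg (fun h => by omega)]
    · intro i
      rw [hcoef i _ le_rfl]
      beta_reduce
      by_cases hi : i ∈ B.1
      · rw [if_pos hi, if_neg (fun h => homne (Nat.add_left_cancel h).symm),
          if_neg (fun h => (mem_sdiff.mp h).2 hi)]
      · rw [if_neg hi]
        by_cases h5 : i ∈ I \ B.1
        · rw [if_pos ⟨h5, rfl⟩, if_pos h5]
        · rw [if_neg (fun h => h5 h.1), if_neg h5]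

/-- `el` of a multiple of an indicator function. -/
theorem el_ind {d : ℕ} {o : Finset (Fin m) → Fin m} [Fact p.Prime] (hdp : d < p)
    (C C' : Finset (Fin m)) (h0 : 0 < (C ∩ C').card) (h1 : (C ∩ C').card < d) (c : ZMod p)
    (hc : c ≠ 0) : el d o C' (fun i => if i ∈ C then c else 0) ≠ 0 := by
  have h2 : el d o C' (fun i => if i ∈ C then c else 0) =
      c * (((C ∩ C').card : ZMod p) - (if o C' ∈ C then (d : ZMod p) else 0)) := by
    unfold el
    rw [← sum_filter, filter_mem_eq_inter, sum_const, nsmul_eq_mul, inter_comm]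
    by_cases h : o C' ∈ C
    · simp only [if_pos h]
      ring
    · simp only [if_neg h]
      ring
  rw [h2]
  refine mul_ne_zero hc ?_
  have h3 : ∀ k : ℕ, 0 < k → k < p → ((k : ℕ) : ZMod p) ≠ 0 := by
    intro k hk hkp h
    rw [ZMod.natCast_eq_zero_iff] at h
    exact absurd (Nat.le_of_dvd hk h) (by omega)
  by_cases h : o C' ∈ C
  · rw [if_pos h]
    intro h4
    have h5 : ((d - (C ∩ C').card : ℕ) : ZMod p) = 0 := by
      rw [Nat.cast_sub h1.le]
      linear_combination -h4
    exact h3 _ (by omega) (by omega) h5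
  · rw [if_neg h, sub_zero]
    exact h3 _ h0 (by omega)

/-- Words. -/
theorem word {d : ℕ} {o : Finset (Fin m) → Fin m} {om : Finset (Fin m) → ℕ}
    {I : Finset (Fin m)} [Fact p.Prime] (hd : 2 ≤ d) (hdp : d < p) (hI : I.card = 2 * d)
    (ho : ∀ B, B.Nonempty → o B ∈ B) (h1 : ∀ B, 1 ≤ om B) (hinj : Function.Injective om)
    (v : List (Pr d o I × (ZMod p × ZMod p))) : ∀ (l : Pr d o I × (ZMod p × ZMod p)),
    Red (l :: v) → ∀ (Y : Fin m → (ZMod p)[X]) (D : ℕ) (P : Fin m → ZMod p), Pat Y D P →
    el d o (ld d o om I l) P ≠ 0 → ∃ (D' : ℕ) (c : ZMod p) (C : Finset (Fin m)), D < D' ∧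
      c ≠ 0 ∧ C.Nonempty ∧
      Pat (act (tau p d o (fun B => (X : (ZMod p)[X]) ^ om B) I) (l :: v) Y) D'
        (fun i => if i ∈ C then c else 0) := by
  induction v with
  | nil =>
    intro l hv Y D P hY hP
    obtain ⟨c, hc, hpat⟩ := step hd hI ho h1 hinj l (hv.1 l (by simp)) Y D P hY hP
    refine ⟨_, c, ld d o om I l, ?_, hc, ?_, hpat⟩
    · have := h1 (ld d o om I l)
      omega
    · rw [← Finset.card_pos, ld_card hI]
      omega
  | cons l' v ih =>
    intro l hv Y D P hY hP
    obtain ⟨c, hc, hpat⟩ := step hd hI ho h1 hinj l (hv.1 l (by simp)) Y D P hY hP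
    have hv2 := hv.2
    rw [List.isChain_cons_cons] at hv2
    have hint := ld_inter (om := om) hI l l' hv2.1
    obtain ⟨D', c', C', hD', hc', hC', hp'⟩ := ih l' ⟨fun x hx => hv.1 x (List.mem_cons_of_mem _ hx),
      hv2.2⟩ _ _ _ hpat (el_ind hdp _ _ hint.1 hint.2 c hc)
    refine ⟨D', c', C', ?_, hc', hC', hp'⟩
    omega

end letter

end Wrd31

open Wrd31

/-- row WRD -/
theorem t_wrd : WRDStmt := by
  classical
  intro p m d _ o om I hd hdp hI ho h1 hinj v hv hred
  obtain ⟨l, v, rfl⟩ := List.exists_cons_of_ne_nil hv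
  -- the first vector
  have hCc : (ld d o om I l).card = d := ld_card hI l
  obtain ⟨i0, hi0, hi0o⟩ : ∃ i ∈ ld d o om I l, i ≠ o (ld d o om I l) :=
    exists_mem_ne (by rw [hCc]; omega) _
  have hoC : o (ld d o om I l) ∈ ld d o om I l := ho _ ⟨i0, hi0⟩
  set y0 : Fin m → (ZMod p)[X] := Pi.single i0 1 with hy0
  set P0 : Fin m → ZMod p := Pi.single i0 1 with hP0
  have hy0i : ∀ i, y0 i = C (P0 i) := by
    intro i
    rw [hy0, hP0]
    by_cases h : i = i0
    · subst h
      rw [Pi.single_eq_same, Pi.single_eq_same, C_1]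
    · rw [Pi.single_eq_of_ne h, Pi.single_eq_of_ne h, C_0]
  have hpat0 : Pat y0 0 P0 := by
    refine ⟨?_, ?_⟩
    · intro i n hn
      rw [hy0i, coeff_C, if_neg (by omega)]
    · intro i
      rw [hy0i, coeff_C_zero]
  have hel0 : el d o (ld d o om I l) P0 ≠ 0 := by
    unfold el
    rw [hP0, Pi.single_eq_of_ne (fun h => hi0o h.symm), mul_zero, sub_zero]
    rw [Finset.sum_pi_single', if_pos hi0]
    exact one_ne_zero
  obtain ⟨D, c, C', hD, hc, ⟨i, hi⟩, hpat⟩ := word hd hdp hI ho h1 hinj v l hred y0 0 P0 hpat0 hel0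
  refine ⟨act (tau p d o (fun B => (X : (ZMod p)[X]) ^ om B) I) (l :: v) y0 i - y0 i, ?_, ?_⟩
  · intro h
    have h2 : (act (tau p d o (fun B => (X : (ZMod p)[X]) ^ om B) I) (l :: v) y0 i -
        y0 i).coeff D = 0 := by
      rw [h, coeff_zero]
    rw [coeff_sub, hpat.2 i, hpat0.1 i D hD, sub_zero] at h2
    beta_reduce at h2
    rw [if_pos hi] at h2
    exact hc h2
  · intro K _ _ z hz
    refine ⟨fun i => aeval z (y0 i), ?_, ?_⟩
    · intro j hj
      have hne : j ≠ i0 := by
        rintro rfl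
        exact hj (ld_sub l hi0)
      simp only
      rw [hy0, Pi.single_eq_of_ne hne, map_zero]
    · intro h
      apply hz
      have h2 := act_hom (p := p) (aeval z : (ZMod p)[X] →ₐ[ZMod p] K) d o
        (fun B => (X : (ZMod p)[X]) ^ om B) I (l :: v) y0
      have h3 : (fun B => (aeval z : (ZMod p)[X] →ₐ[ZMod p] K) ((X : (ZMod p)[X]) ^ om B)) =
          fun B => z ^ om B := by
        funext B
        rw [map_pow, aeval_X]
      rw [h3] at h2
      rw [map_sub]
      have h4 := congrFun (h2.symm.trans h) i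
      rw [h4, sub_self]

end Pool.SQA
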